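import Pool.Agent.ABH.Final2
import Pool.Agent.SPJ.Prime

/-!
# The torsor of Hodge classes of an abelian variety and the Zariski closure of its period point

`A : AbVar g` is an abelian variety over the field of algebraic numbers (`Pool/Agent/DRB/Defs.lean`), with
an ample divisor `D` with theta function `θ`, the basis `dz_k`, `d (∂_k log θ)` of `H¹_dR(A)` over the
algebraic numbers and a basis of `H_1(A, ℤ)`.

The cohomology ring of `A` is the exterior algebra of `H¹(A)`, so an isomorphism in the motivic torsor
`Ω^mot_A ⊆ Iso (H_dR (A), H_B (A))` of periods is given by an isomorphism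
`f : H¹_dR(A) ⊗ ℂ → H¹_B(A) ⊗ ℂ` and the number `λ` by which it acts on Tate twists.  It is represented by
the matrix of the values of `f` at the basis of `H¹_dR(A)` (rows) on the basis of `H_1(A, ℤ)` (columns); for
the comparison isomorphism `c` this is the matrix of periods, and `λ = 2 π i`.

Definitions:
* `Pool/Agent/ABT/Defs.lean`: the points `Pt g` of `Iso`, the comparison isomorphism, `ZX A` (the complex
  points of the Zariski closure of `c` over the algebraic numbers), subtorsors (`IsSubtorsor`);
* `Pool/Agent/ABH/Defs2.lean`: Hodge classes (`HodgeClass`) and their torsor `HodgeTorsor A`;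
* `Pool/Agent/DRB/Defs3.lean`, `Pool/Agent/DRB/Defs4.lean`: the class `Rank2CM`.  It contains all abelian
  varieties whose simple factors have complex multiplication by fields which are abelian over `ℚ` (for example
  the Jacobians of all Fermat curves), and all products of such abelian varieties with abelian varieties whose
  endomorphism algebra is a field of degree equal to the dimension or an indefinite quaternion algebra of
  degree equal to twice the dimension, with arbitrary multiplicities.
-/

namespace Pool.Agent.Results.MP_77d3f5_ag.AbelianTorsor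

open Pool.Agent.DRB
open Pool.Agent.ABT (Pt IsSubtorsor ZX)
open Pool.Agent.ABH (HodgeTorsor hodgeTorsorT)

/-- The simple `End(A) ⊗ ℂ`-modules have multiplicity one in `H_1(A, ℂ)`, they are conjugate under the
automorphisms of `ℂ`, and their number is `2 l`: `A` is isogenous to a power of a simple abelian variety of
dimension `l` with complex multiplication by a field of degree `2 l`. -/
def CMPower {g : ℕ} (A : AbVar g) (l : ℕ) : Prop :=
  (∀ p, A.IsComp p → A.comDim p = 1) ∧
  (∀ p q, A.IsComp p → A.IsComp q → ∃ σ : ℂ ≃ₐ[ℚ] ℂ, p.map σ = q) ∧
  {p | A.IsComp p}.ncard = 2 * l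

/-- The class of abelian varieties of the theorem. -/
def Class {g : ℕ} (A : AbVar g) : Prop :=
  A.Rank2CM ∨
  (∃ l : ℕ, l.Prime ∧ CMPower A l) ∨
  (g ≤ 3 ∧ ∀ p, A.IsComp p → A.comDim p = 1 ∨ (A.comDim p = 4 ∧ cc p = p))

/-- For an abelian variety `A` over the algebraic numbers in the class `Class`, the torsor `Ω_A` of all
Hodge classes on all powers of `A` is the smallest subtorsor of `Iso` containing `Z_A`. -/
theorem result : ∀ (g : ℕ) (A : AbVar g), Class A →
    IsLeast {S : Set (Pt g) | IsSubtorsor S ∧ ZX A ⊆ S} (HodgeTorsor A) := by
  intro g A hA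
  have h : A.Rank2CM := by
    rcases hA with h | ⟨l, hl, h⟩ | ⟨hg, h⟩
    · exact h
    · exact Pool.Agent.SPJ.rank2CM_of_prime A l hl h
    · exact Pool.Agent.SPJ.rank2CM_of_dim_le_three A hg h
  exact hodgeTorsorT g A h

end Pool.Agent.Results.MP_77d3f5_ag.AbelianTorsor
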