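import Pool.Agent.GPH.Main

/-!
# The period conjecture up to bounded complexity for 100 percent of the hyperelliptic curves of
every genus over the rational numbers, and of their products

The curves are `y ^ 2 = x ^ (2 g + 1) + a_2 x ^ (2 g - 1) + ... + a_(2 g + 1)`, `a_k` integers with
`|a_k| ≤ X ^ k`. For all `r`, `g_1, ..., g_r`, `m, D, A, B`: for 100 percent of the `r`-tuples of
such curves, for all `m`-tuples of closed paths on each of the curves with periods of absolute
value at most `X ^ B`, every integral polynomial of degree at most `D` with coefficients at most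
`X ^ A` in absolute value which vanishes at the period point `(2 π i, M_1, ..., M_r)` vanishes at
all the points `(mu 2 π i, h_1 M_1, ..., h_r M_r)`, `h_i` symplectic similitudes with multiplier
`mu`. The first part of the theorem is Riemann's bilinear relations for closed paths.
-/

open scoped BigOperators

open Pool.Agent.GPH in
theorem Pool.Agent.Results.MP_77d3f5_ag.HyperellipticPeriods.result (r : ℕ) (g : Fin r → ℕ)
    (hg : ∀ i, 0 < g i) (m D A B : ℕ) :
    (∀ i, ∀ c : Fin (2 * g i + 1) → ℂ, (pol (2 * g i + 1) c).Separable →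
      ∀ γ : Fin m → CPath (pol (2 * g i + 1) c), ∃ N : Matrix (Fin m) (Fin m) ℤ,
        (perMat (g i) γ).transpose * Matrix.J (Fin (g i)) ℂ * perMat (g i) γ =
          (2 * Real.pi * Complex.I) • N.map (fun x : ℤ => (x : ℂ))) ∧
    Filter.Tendsto (fun X : ℕ =>
      (Nat.card {c : ∀ i, Fin (2 * g i + 1) → ℤ // (∀ i, c i ∈ box (g i) X) ∧
        Bad m D (X ^ A) (X ^ B) c} : ℝ) / ∏ i, ((box (g i) X).card : ℝ))
      Filter.atTop (nhds 0) :=
  ⟨fun i c hc γ => Main.riemZ (g i) (hg i) c hc m γ, Main.finalZ r g hg m D A B⟩
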